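import Pool.Agent.Helper71.PY.Goals

/-!
# PY-CH: Witt cancellation of hyperbolic forms
-/

set_option autoImplicit false

namespace Pool.Agent.Helper20.PY

open Pool.Agent.Helper71.PY Matrix

section

variable {R : Type} [CommRing R]
variable {N : Type} [AddCommGroup N] [Module R N]

/-- The linear isomorphism splitting off one hyperbolic plane. -/
def spl (h : R) (h2 : 2 * h = 1) (j : ℕ) :
    (N × ((Fin (j + 1) → R) × (Fin (j + 1) → R))) ≃ₗ[R]
      (R × (R × (N × ((Fin j → R) × (Fin j → R))))) where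
  toFun p := (p.2.1 0 + h * p.2.2 0,
    (p.2.1 0 - h * p.2.2 0, (p.1, (fun i => p.2.1 i.succ, fun i => p.2.2 i.succ))))
  map_add' p q := by
    refine Prod.ext ?_ (Prod.ext ?_ (Prod.ext ?_ (Prod.ext ?_ ?_)))
    · simp only [Prod.snd_add, Prod.fst_add, Pi.add_apply]; ring
    · simp only [Prod.snd_add, Prod.fst_add, Pi.add_apply]; ring
    · rfl
    · rfl
    · rfl
  map_smul' c p := by
    refine Prod.ext ?_ (Prod.ext ?_ (Prod.ext ?_ (Prod.ext ?_ ?_)))
    · simp only [Prod.smul_snd, Prod.smul_fst, Pi.smul_apply, smul_eq_mul, RingHom.id_apply]; ring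
    · simp only [Prod.smul_snd, Prod.smul_fst, Pi.smul_apply, smul_eq_mul, RingHom.id_apply]; ring
    · rfl
    · rfl
    · rfl
  invFun q := (q.2.2.1, ((Fin.cons (h * (q.1 + q.2.1)) q.2.2.2.1 : Fin (j + 1) → R),
    (Fin.cons (q.1 - q.2.1) q.2.2.2.2 : Fin (j + 1) → R)))
  left_inv p := by
    refine Prod.ext rfl (Prod.ext ?_ ?_)
    · funext i
      refine Fin.cases ?_ (fun i => ?_) i
      · simp only [Fin.cons_zero]
        linear_combination (p.2.1 0) * h2
      · simp only [Fin.cons_succ]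
    · funext i
      refine Fin.cases ?_ (fun i => ?_) i
      · simp only [Fin.cons_zero]
        linear_combination (p.2.2 0) * h2
      · simp only [Fin.cons_succ]
  right_inv q := by
    refine Prod.ext ?_ (Prod.ext ?_ (Prod.ext rfl (Prod.ext ?_ ?_)))
    · simp only [Fin.cons_zero]
      linear_combination q.1 * h2
    · simp only [Fin.cons_zero]
      linear_combination q.2.1 * h2
    · funext i
      simp only [Fin.cons_succ]
    · funext i
      simp only [Fin.cons_succ]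

theorem iso_spl (h : R) (h2 : 2 * h = 1) (B : N →ₗ[R] N →ₗ[R] R) (j : ℕ) :
    Iso (os B (Hn R (j + 1))) (os (rk1 1) (os (rk1 (-1)) (os B (Hn R j)))) := by
  refine ⟨spl h h2 j, fun v w => ?_⟩
  simp only [spl, LinearEquiv.coe_mk, LinearMap.coe_mk, AddHom.coe_mk, os_apply, rk1_apply,
    Hn_apply, dotProduct, Fin.sum_univ_succ]
  linear_combination (v.2.1 0 * w.2.2 0 + v.2.2 0 * w.2.1 0) * h2

theorem iso_symm {N' : Type} [AddCommGroup N'] [Module R N'] {B : N →ₗ[R] N →ₗ[R] R}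
    {B' : N' →ₗ[R] N' →ₗ[R] R} (h : Iso B B') : Iso B' B := by
  obtain ⟨e, he⟩ := h
  refine ⟨e.symm, fun v w => ?_⟩
  rw [← he, e.apply_symm_apply, e.apply_symm_apply]

theorem iso_trans {N' N'' : Type} [AddCommGroup N'] [Module R N'] [AddCommGroup N'']
    [Module R N''] {B : N →ₗ[R] N →ₗ[R] R}
    {B' : N' →ₗ[R] N' →ₗ[R] R} {B'' : N'' →ₗ[R] N'' →ₗ[R] R} (h : Iso B B') (h' : Iso B' B'') :
    Iso B B'' := by
  obtain ⟨e, he⟩ := h
  obtain ⟨f, hf⟩ := h'
  refine ⟨e.trans f, fun v w => ?_⟩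
  rw [LinearEquiv.trans_apply, LinearEquiv.trans_apply, hf, he]

theorem iso_zero (B : N →ₗ[R] N →ₗ[R] R) : Iso (os B (Hn R 0)) B := by
  refine ⟨⟨⟨⟨fun p => p.1, fun _ _ => rfl⟩, fun _ _ => rfl⟩, fun n => (n, 0), fun p => ?_,
    fun _ => rfl⟩, fun v w => ?_⟩
  · exact Prod.ext rfl (Subsingleton.elim _ _)
  · simp [os_apply, Hn_apply, dotProduct]

theorem symm_Hn (j : ℕ) (v w : (Fin j → R) × (Fin j → R)) : Hn R j v w = Hn R j w v := by
  simp only [Hn_apply]
  rw [dotProduct_comm v.1, dotProduct_comm v.2]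
  ring

theorem symm_os {N' : Type} [AddCommGroup N'] [Module R N'] {B : N →ₗ[R] N →ₗ[R] R}
    {B' : N' →ₗ[R] N' →ₗ[R] R} (h : ∀ v w, B v w = B w v) (h' : ∀ v w, B' v w = B' w v)
    (v w : N × N') : os B B' v w = os B B' w v := by
  rw [os_apply, os_apply, h, h']

theorem symm_rk1 (u : R) (v w : R) : rk1 u v w = rk1 u w v := by
  simp only [rk1_apply]
  ring

end

/-- Witt cancellation of hyperbolic forms. -/
theorem ch (h : G_C1) : G_CH := by
  intro R _ _ h2 N1 N2 _ _ _ _ B1 B2 s1 s2 j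
  obtain ⟨hh, hh2⟩ := h2.exists_right_inv
  induction j with
  | zero => exact fun hi => iso_trans (iso_symm (iso_zero B1)) (iso_trans hi (iso_zero B2))
  | succ j ih =>
    intro hi
    apply ih
    have k1 : Iso (os (rk1 1) (os (rk1 (-1)) (os B1 (Hn R j))))
        (os (rk1 1) (os (rk1 (-1)) (os B2 (Hn R j)))) :=
      iso_trans (iso_symm (iso_spl hh hh2 B1 j)) (iso_trans hi (iso_spl hh hh2 B2 j))
    have k2 := h R h2 1 isUnit_one _ _ _ _
      (symm_os (symm_rk1 (-1)) (symm_os s1 (symm_Hn j)))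
      (symm_os (symm_rk1 (-1)) (symm_os s2 (symm_Hn j))) k1
    exact h R h2 (-1) isUnit_one.neg _ _ _ _ (symm_os s1 (symm_Hn j)) (symm_os s2 (symm_Hn j)) k2

end Pool.Agent.Helper20.PY
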